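import Mathlib

/-!
Scalar lemmas for the full induction of Manickam-Miklos-Singhi (helper83 79443, helper39 78667,
helper49 78539): elimination of r, the invariant, (QL) and (HL) at Lam = 8/5 (t in (1/3,1)) and
Lam = 5/4 (t at most 1/3).  Every lemma is about real numbers t, q, r, h, f only.
-/

namespace Pool.MMSh41

/-- D(t,q) = 4(1+t) times the right side of (RB) at r = 0. -/
noncomputable def DD (t q : ℝ) : ℝ := (2 + t) ^ 2 * q ^ 2 + t * (2 + t) - 2 * t * (1 + t) * q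

theorem DD_pos (t q : ℝ) (ht : 0 < t) : 0 < DD t q := by
  unfold DD
  nlinarith [sq_nonneg ((2 + t) * q - t * (1 + t) / (2 + t)), sq_nonneg (q - t), sq_nonneg ((2+t)*q - t),
    mul_pos ht ht, mul_pos (mul_pos ht ht) ht, sq_nonneg q, mul_nonneg ht.le (sq_nonneg q),
    mul_nonneg ht.le (sq_nonneg (q - 1)), mul_nonneg (mul_pos ht ht).le (sq_nonneg (q - 1))]

theorem elim_SP {t q r h : ℝ} (ht : 0 < t) (hq : 0 ≤ q) (hr : 0 ≤ r) (hqh : q ≤ h) (hrl : r ≤ 1 - h)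
    (hSP : q ^ 2 / h + r ^ 2 / (1 - h) ≤ (q - r) ^ 2 + t / (4 * (1 + t)) * (1 - (q - r) ^ 2)
      + t / 4 * ((1 - (q - r)) ^ 2 - 4 * r)) :
    4 * (1 + t) * q ^ 2 ≤ h * DD t q := by
  have hh0 : 0 ≤ h := hq.trans hqh
  have hr1 : r ≤ 1 := by linarith
  have h1 : r ^ 2 ≤ r ^ 2 / (1 - h) := by
    rcases eq_or_lt_of_le (hr.trans hrl) with h0 | h0
    · have : r = 0 := le_antisymm (by linarith) hr
      simp [this]
    · rw [le_div_iff₀ h0]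
      nlinarith [sq_nonneg r]
  have h2 : q ^ 2 / h ≤ (q - r) ^ 2 + t / (4 * (1 + t)) * (1 - (q - r) ^ 2)
      + t / 4 * ((1 - (q - r)) ^ 2 - 4 * r) - r ^ 2 := by linarith
  have h3 : ((q - r) ^ 2 + t / (4 * (1 + t)) * (1 - (q - r) ^ 2)
      + t / 4 * ((1 - (q - r)) ^ 2 - 4 * r) - r ^ 2) * (4 * (1 + t)) =
      DD t q + r * (-(8 + 6 * t + 2 * t * (1 + t)) * q - 2 * t * (1 + t) + r * t ^ 2) := by
    unfold DD
    have : (1 + t) ≠ 0 := by positivity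
    field_simp
    ring
  have h4 : r * (-(8 + 6 * t + 2 * t * (1 + t)) * q - 2 * t * (1 + t) + r * t ^ 2) ≤ 0 := by
    apply mul_nonpos_of_nonneg_of_nonpos hr
    have : 0 ≤ (8 + 6 * t + 2 * t * (1 + t)) * q := by positivity
    nlinarith [mul_le_mul_of_nonneg_right hr1 (sq_nonneg t)]
  have h5 : q ^ 2 / h * (4 * (1 + t)) ≤ DD t q := by
    have := mul_le_mul_of_nonneg_right h2 (by positivity : (0:ℝ) ≤ 4 * (1 + t))
    linarith
  rcases eq_or_lt_of_le hh0 with h0 | h0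
  · have : q = 0 := le_antisymm (by linarith) hq
    rw [← h0, this]; simp
  · have h6 := mul_le_mul_of_nonneg_right h5 h0.le
    have h7 : q ^ 2 / h * (4 * (1 + t)) * h = 4 * (1 + t) * q ^ 2 := by
      field_simp
    linarith

theorem elim_RF {t q r h f : ℝ} (ht : 0 < t) (hr : 0 ≤ r) (hf1 : f ≤ 1)
    (hRF : f * (1 + q - r) ≤ (1 - h - r) + t / (1 + t) * (h - q)) :
    h ≤ 1 + t - t * q - f * (1 + t) * (1 + q) := by
  have h1 := mul_le_mul_of_nonneg_right hRF (by positivity : (0:ℝ) ≤ 1 + t)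
  have h2 : ((1 - h - r) + t / (1 + t) * (h - q)) * (1 + t) = (1 + t) * (1 - h - r) + t * (h - q) := by
    field_simp
  rw [h2] at h1
  nlinarith [mul_nonneg (mul_nonneg hr (by linarith : (0:ℝ) ≤ 1 - f)) (by linarith : (0:ℝ) ≤ 1 + t)]


theorem S2a {t q : ℝ} (h0 : (1/3 : ℝ) ≤ t) (h1 : t ≤ (3/7 : ℝ)) (hq0 : (11/20 : ℝ) ≤ q) (hq1 : q ≤ 1) :
    (1 + t - t * q - (9/49 : ℝ) * (1 + t) * (1 + q)) * DD t q < 4 * (1 + t) * q ^ 2 := by
  have a0 : 0 ≤ t - (1/3 : ℝ) := by linarith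
  have a1 : 0 ≤ (3/7 : ℝ) - t := by linarith
  have b0 : 0 ≤ q - (11/20 : ℝ) := by linarith
  have b1 : 0 ≤ 1 - q := by linarith
  unfold DD
  linarith only [mul_nonneg (mul_nonneg (pow_nonneg a0 0) (pow_nonneg a1 3)) (mul_nonneg (pow_nonneg b0 0) (pow_nonneg b1 3)),
    mul_nonneg (mul_nonneg (pow_nonneg a0 0) (pow_nonneg a1 3)) (mul_nonneg (pow_nonneg b0 1) (pow_nonneg b1 2)),
    mul_nonneg (mul_nonneg (pow_nonneg a0 0) (pow_nonneg a1 3)) (mul_nonneg (pow_nonneg b0 2) (pow_nonneg b1 1)),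
    mul_nonneg (mul_nonneg (pow_nonneg a0 0) (pow_nonneg a1 3)) (mul_nonneg (pow_nonneg b0 3) (pow_nonneg b1 0)),
    mul_nonneg (mul_nonneg (pow_nonneg a0 1) (pow_nonneg a1 2)) (mul_nonneg (pow_nonneg b0 0) (pow_nonneg b1 3)),
    mul_nonneg (mul_nonneg (pow_nonneg a0 1) (pow_nonneg a1 2)) (mul_nonneg (pow_nonneg b0 1) (pow_nonneg b1 2)),
    mul_nonneg (mul_nonneg (pow_nonneg a0 1) (pow_nonneg a1 2)) (mul_nonneg (pow_nonneg b0 2) (pow_nonneg b1 1)),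
    mul_nonneg (mul_nonneg (pow_nonneg a0 1) (pow_nonneg a1 2)) (mul_nonneg (pow_nonneg b0 3) (pow_nonneg b1 0)),
    mul_nonneg (mul_nonneg (pow_nonneg a0 2) (pow_nonneg a1 1)) (mul_nonneg (pow_nonneg b0 0) (pow_nonneg b1 3)),
    mul_nonneg (mul_nonneg (pow_nonneg a0 2) (pow_nonneg a1 1)) (mul_nonneg (pow_nonneg b0 1) (pow_nonneg b1 2)),
    mul_nonneg (mul_nonneg (pow_nonneg a0 2) (pow_nonneg a1 1)) (mul_nonneg (pow_nonneg b0 2) (pow_nonneg b1 1)),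
    mul_nonneg (mul_nonneg (pow_nonneg a0 2) (pow_nonneg a1 1)) (mul_nonneg (pow_nonneg b0 3) (pow_nonneg b1 0)),
    mul_nonneg (mul_nonneg (pow_nonneg a0 3) (pow_nonneg a1 0)) (mul_nonneg (pow_nonneg b0 0) (pow_nonneg b1 3)),
    mul_nonneg (mul_nonneg (pow_nonneg a0 3) (pow_nonneg a1 0)) (mul_nonneg (pow_nonneg b0 1) (pow_nonneg b1 2)),
    mul_nonneg (mul_nonneg (pow_nonneg a0 3) (pow_nonneg a1 0)) (mul_nonneg (pow_nonneg b0 2) (pow_nonneg b1 1)),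
    mul_nonneg (mul_nonneg (pow_nonneg a0 3) (pow_nonneg a1 0)) (mul_nonneg (pow_nonneg b0 3) (pow_nonneg b1 0))]

theorem S2b {t q : ℝ} (h0 : (3/7 : ℝ) ≤ t) (h1 : t ≤ (1/2 : ℝ)) (hq0 : (11/20 : ℝ) ≤ q) (hq1 : q ≤ 1) :
    (1 + t - t * q - (1/5 : ℝ) * (1 + t) * (1 + q)) * DD t q < 4 * (1 + t) * q ^ 2 := by
  have a0 : 0 ≤ t - (3/7 : ℝ) := by linarith
  have a1 : 0 ≤ (1/2 : ℝ) - t := by linarith
  have b0 : 0 ≤ q - (11/20 : ℝ) := by linarith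
  have b1 : 0 ≤ 1 - q := by linarith
  unfold DD
  linarith only [mul_nonneg (mul_nonneg (pow_nonneg a0 0) (pow_nonneg a1 3)) (mul_nonneg (pow_nonneg b0 0) (pow_nonneg b1 3)),
    mul_nonneg (mul_nonneg (pow_nonneg a0 0) (pow_nonneg a1 3)) (mul_nonneg (pow_nonneg b0 1) (pow_nonneg b1 2)),
    mul_nonneg (mul_nonneg (pow_nonneg a0 0) (pow_nonneg a1 3)) (mul_nonneg (pow_nonneg b0 2) (pow_nonneg b1 1)),
    mul_nonneg (mul_nonneg (pow_nonneg a0 0) (pow_nonneg a1 3)) (mul_nonneg (pow_nonneg b0 3) (pow_nonneg b1 0)),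
    mul_nonneg (mul_nonneg (pow_nonneg a0 1) (pow_nonneg a1 2)) (mul_nonneg (pow_nonneg b0 0) (pow_nonneg b1 3)),
    mul_nonneg (mul_nonneg (pow_nonneg a0 1) (pow_nonneg a1 2)) (mul_nonneg (pow_nonneg b0 1) (pow_nonneg b1 2)),
    mul_nonneg (mul_nonneg (pow_nonneg a0 1) (pow_nonneg a1 2)) (mul_nonneg (pow_nonneg b0 2) (pow_nonneg b1 1)),
    mul_nonneg (mul_nonneg (pow_nonneg a0 1) (pow_nonneg a1 2)) (mul_nonneg (pow_nonneg b0 3) (pow_nonneg b1 0)),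
    mul_nonneg (mul_nonneg (pow_nonneg a0 2) (pow_nonneg a1 1)) (mul_nonneg (pow_nonneg b0 0) (pow_nonneg b1 3)),
    mul_nonneg (mul_nonneg (pow_nonneg a0 2) (pow_nonneg a1 1)) (mul_nonneg (pow_nonneg b0 1) (pow_nonneg b1 2)),
    mul_nonneg (mul_nonneg (pow_nonneg a0 2) (pow_nonneg a1 1)) (mul_nonneg (pow_nonneg b0 2) (pow_nonneg b1 1)),
    mul_nonneg (mul_nonneg (pow_nonneg a0 2) (pow_nonneg a1 1)) (mul_nonneg (pow_nonneg b0 3) (pow_nonneg b1 0)),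
    mul_nonneg (mul_nonneg (pow_nonneg a0 3) (pow_nonneg a1 0)) (mul_nonneg (pow_nonneg b0 0) (pow_nonneg b1 3)),
    mul_nonneg (mul_nonneg (pow_nonneg a0 3) (pow_nonneg a1 0)) (mul_nonneg (pow_nonneg b0 1) (pow_nonneg b1 2)),
    mul_nonneg (mul_nonneg (pow_nonneg a0 3) (pow_nonneg a1 0)) (mul_nonneg (pow_nonneg b0 2) (pow_nonneg b1 1)),
    mul_nonneg (mul_nonneg (pow_nonneg a0 3) (pow_nonneg a1 0)) (mul_nonneg (pow_nonneg b0 3) (pow_nonneg b1 0))]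

theorem S2c {t q : ℝ} (h0 : (1/2 : ℝ) ≤ t) (h1 : t ≤ (3/4 : ℝ)) (hq0 : (11/20 : ℝ) ≤ q) (hq1 : q ≤ 1) :
    (1 + t - t * q - (9/40 : ℝ) * (1 + t) * (1 + q)) * DD t q < 4 * (1 + t) * q ^ 2 := by
  have a0 : 0 ≤ t - (1/2 : ℝ) := by linarith
  have a1 : 0 ≤ (3/4 : ℝ) - t := by linarith
  have b0 : 0 ≤ q - (11/20 : ℝ) := by linarith
  have b1 : 0 ≤ 1 - q := by linarith
  unfold DD
  linarith only [mul_nonneg (mul_nonneg (pow_nonneg a0 0) (pow_nonneg a1 3)) (mul_nonneg (pow_nonneg b0 0) (pow_nonneg b1 3)),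
    mul_nonneg (mul_nonneg (pow_nonneg a0 0) (pow_nonneg a1 3)) (mul_nonneg (pow_nonneg b0 1) (pow_nonneg b1 2)),
    mul_nonneg (mul_nonneg (pow_nonneg a0 0) (pow_nonneg a1 3)) (mul_nonneg (pow_nonneg b0 2) (pow_nonneg b1 1)),
    mul_nonneg (mul_nonneg (pow_nonneg a0 0) (pow_nonneg a1 3)) (mul_nonneg (pow_nonneg b0 3) (pow_nonneg b1 0)),
    mul_nonneg (mul_nonneg (pow_nonneg a0 1) (pow_nonneg a1 2)) (mul_nonneg (pow_nonneg b0 0) (pow_nonneg b1 3)),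
    mul_nonneg (mul_nonneg (pow_nonneg a0 1) (pow_nonneg a1 2)) (mul_nonneg (pow_nonneg b0 1) (pow_nonneg b1 2)),
    mul_nonneg (mul_nonneg (pow_nonneg a0 1) (pow_nonneg a1 2)) (mul_nonneg (pow_nonneg b0 2) (pow_nonneg b1 1)),
    mul_nonneg (mul_nonneg (pow_nonneg a0 1) (pow_nonneg a1 2)) (mul_nonneg (pow_nonneg b0 3) (pow_nonneg b1 0)),
    mul_nonneg (mul_nonneg (pow_nonneg a0 2) (pow_nonneg a1 1)) (mul_nonneg (pow_nonneg b0 0) (pow_nonneg b1 3)),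
    mul_nonneg (mul_nonneg (pow_nonneg a0 2) (pow_nonneg a1 1)) (mul_nonneg (pow_nonneg b0 1) (pow_nonneg b1 2)),
    mul_nonneg (mul_nonneg (pow_nonneg a0 2) (pow_nonneg a1 1)) (mul_nonneg (pow_nonneg b0 2) (pow_nonneg b1 1)),
    mul_nonneg (mul_nonneg (pow_nonneg a0 2) (pow_nonneg a1 1)) (mul_nonneg (pow_nonneg b0 3) (pow_nonneg b1 0)),
    mul_nonneg (mul_nonneg (pow_nonneg a0 3) (pow_nonneg a1 0)) (mul_nonneg (pow_nonneg b0 0) (pow_nonneg b1 3)),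
    mul_nonneg (mul_nonneg (pow_nonneg a0 3) (pow_nonneg a1 0)) (mul_nonneg (pow_nonneg b0 1) (pow_nonneg b1 2)),
    mul_nonneg (mul_nonneg (pow_nonneg a0 3) (pow_nonneg a1 0)) (mul_nonneg (pow_nonneg b0 2) (pow_nonneg b1 1)),
    mul_nonneg (mul_nonneg (pow_nonneg a0 3) (pow_nonneg a1 0)) (mul_nonneg (pow_nonneg b0 3) (pow_nonneg b1 0))]

theorem S2d {t q : ℝ} (h0 : (3/4 : ℝ) ≤ t) (h1 : t ≤ (1 : ℝ)) (hq0 : (11/20 : ℝ) ≤ q) (hq1 : q ≤ 1) :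
    (1 + t - t * q - (1/4 : ℝ) * (1 + t) * (1 + q)) * DD t q < 4 * (1 + t) * q ^ 2 := by
  have a0 : 0 ≤ t - (3/4 : ℝ) := by linarith
  have a1 : 0 ≤ (1 : ℝ) - t := by linarith
  have b0 : 0 ≤ q - (11/20 : ℝ) := by linarith
  have b1 : 0 ≤ 1 - q := by linarith
  unfold DD
  linarith only [mul_nonneg (mul_nonneg (pow_nonneg a0 0) (pow_nonneg a1 3)) (mul_nonneg (pow_nonneg b0 0) (pow_nonneg b1 3)),
    mul_nonneg (mul_nonneg (pow_nonneg a0 0) (pow_nonneg a1 3)) (mul_nonneg (pow_nonneg b0 1) (pow_nonneg b1 2)),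
    mul_nonneg (mul_nonneg (pow_nonneg a0 0) (pow_nonneg a1 3)) (mul_nonneg (pow_nonneg b0 2) (pow_nonneg b1 1)),
    mul_nonneg (mul_nonneg (pow_nonneg a0 0) (pow_nonneg a1 3)) (mul_nonneg (pow_nonneg b0 3) (pow_nonneg b1 0)),
    mul_nonneg (mul_nonneg (pow_nonneg a0 1) (pow_nonneg a1 2)) (mul_nonneg (pow_nonneg b0 0) (pow_nonneg b1 3)),
    mul_nonneg (mul_nonneg (pow_nonneg a0 1) (pow_nonneg a1 2)) (mul_nonneg (pow_nonneg b0 1) (pow_nonneg b1 2)),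
    mul_nonneg (mul_nonneg (pow_nonneg a0 1) (pow_nonneg a1 2)) (mul_nonneg (pow_nonneg b0 2) (pow_nonneg b1 1)),
    mul_nonneg (mul_nonneg (pow_nonneg a0 1) (pow_nonneg a1 2)) (mul_nonneg (pow_nonneg b0 3) (pow_nonneg b1 0)),
    mul_nonneg (mul_nonneg (pow_nonneg a0 2) (pow_nonneg a1 1)) (mul_nonneg (pow_nonneg b0 0) (pow_nonneg b1 3)),
    mul_nonneg (mul_nonneg (pow_nonneg a0 2) (pow_nonneg a1 1)) (mul_nonneg (pow_nonneg b0 1) (pow_nonneg b1 2)),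
    mul_nonneg (mul_nonneg (pow_nonneg a0 2) (pow_nonneg a1 1)) (mul_nonneg (pow_nonneg b0 2) (pow_nonneg b1 1)),
    mul_nonneg (mul_nonneg (pow_nonneg a0 2) (pow_nonneg a1 1)) (mul_nonneg (pow_nonneg b0 3) (pow_nonneg b1 0)),
    mul_nonneg (mul_nonneg (pow_nonneg a0 3) (pow_nonneg a1 0)) (mul_nonneg (pow_nonneg b0 0) (pow_nonneg b1 3)),
    mul_nonneg (mul_nonneg (pow_nonneg a0 3) (pow_nonneg a1 0)) (mul_nonneg (pow_nonneg b0 1) (pow_nonneg b1 2)),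
    mul_nonneg (mul_nonneg (pow_nonneg a0 3) (pow_nonneg a1 0)) (mul_nonneg (pow_nonneg b0 2) (pow_nonneg b1 1)),
    mul_nonneg (mul_nonneg (pow_nonneg a0 3) (pow_nonneg a1 0)) (mul_nonneg (pow_nonneg b0 3) (pow_nonneg b1 0))]

theorem S1 {t q : ℝ} (h0 : 0 < t) (hq0 : 1 / 2 ≤ q) (hq1 : q ≤ 1) :
    (1 - 2 * t * q) * DD t q < 4 * (1 + t) * q ^ 2 := by
  have hD := DD_pos t q h0
  have key : 0 < 2 * q * DD t q - t * (1 - q) ^ 2 - 2 * (1 - q) := by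
    have h1 : DD t q ≤ 2 * q * DD t q := by nlinarith
    have h2 : 1 + 2 * t * (1 - q) + t < DD t q + 2 * (2 * q - 1) + t * (1 - q) ^ 2 + 5 * t := by
      unfold DD
      nlinarith [mul_nonneg h0.le (sub_nonneg.2 hq0), mul_nonneg h0.le (sub_nonneg.2 hq1),
        mul_nonneg (mul_pos h0 h0).le (sub_nonneg.2 hq0), mul_nonneg (mul_pos h0 h0).le (sub_nonneg.2 hq1),
        mul_pos h0 h0, mul_nonneg (sub_nonneg.2 hq0) (sub_nonneg.2 hq1), sq_nonneg (2 * q - 1)]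
    have h3 : 1 < DD t q := by
      unfold DD
      nlinarith [mul_nonneg h0.le (sub_nonneg.2 hq0), mul_nonneg h0.le (sub_nonneg.2 hq1),
        mul_nonneg (mul_pos h0 h0).le (sub_nonneg.2 hq0), mul_nonneg (mul_pos h0 h0).le (sub_nonneg.2 hq1),
        mul_pos h0 h0, mul_nonneg (sub_nonneg.2 hq0) (sub_nonneg.2 hq0),
        mul_nonneg h0.le (mul_nonneg (sub_nonneg.2 hq0) (sub_nonneg.2 hq0)), 
        mul_nonneg (mul_pos h0 h0).le (mul_nonneg (sub_nonneg.2 hq0) (sub_nonneg.2 hq0))]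
    have h4 : t * (1 - q) ^ 2 + 2 * (1 - q) < DD t q := by
      unfold DD
      nlinarith [mul_nonneg h0.le (sub_nonneg.2 hq0), mul_nonneg h0.le (sub_nonneg.2 hq1),
        mul_nonneg (mul_pos h0 h0).le (sub_nonneg.2 hq0), mul_nonneg (mul_pos h0 h0).le (sub_nonneg.2 hq1),
        mul_pos h0 h0, mul_nonneg (sub_nonneg.2 hq0) (sub_nonneg.2 hq0),
        mul_nonneg h0.le (mul_nonneg (sub_nonneg.2 hq0) (sub_nonneg.2 hq0)), 
        mul_nonneg (mul_pos h0 h0).le (mul_nonneg (sub_nonneg.2 hq0) (sub_nonneg.2 hq0))]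
    linarith
  have h2 : 4 * (1 + t) * q ^ 2 - (1 - 2 * t * q) * DD t q
      = t * (2 * q * DD t q - t * (1 - q) ^ 2 - 2 * (1 - q)) := by
    unfold DD; ring
  nlinarith [mul_pos h0 key]

/-- The closed form behind (QL): with s = (2+t) q, G = (s - t) R / 1. -/
theorem G_id (L t q : ℝ) :
    4 * L * (1 + t) * (2 + t) * q ^ 2 - ((1 + L) * (2 + t) * q - t) * DD t q
      = ((2 + t) * q - t) * (-(1 + L) * (2 + t) ^ 2 * q ^ 2
        + (4 * L * (1 + t) + 2 * t + (2 + L) * t ^ 2) * q - t * (2 + t)) := by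
  unfold DD; ring

theorem QL_of_R {L t q h : ℝ} (hL : 0 < L) (ht : 0 < t) (hqh : q ≤ h)
    (hR : t < (2 + t) * q → 0 ≤ -(1 + L) * (2 + t) ^ 2 * q ^ 2
        + (4 * L * (1 + t) + 2 * t + (2 + L) * t ^ 2) * q - t * (2 + t))
    (hSP : 4 * (1 + t) * q ^ 2 ≤ h * DD t q) :
    q - t / (2 + t) ≤ L * (h - q) := by
  have hD := DD_pos t q ht
  have h2t : (0 : ℝ) < 2 + t := by linarith
  rcases le_or_gt ((2 + t) * q) t with hc | hc
  · have : q ≤ t / (2 + t) := by rw [le_div_iff₀ h2t]; linarith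
    nlinarith [mul_nonneg hL.le (sub_nonneg.2 hqh)]
  · have h1 := hR hc
    have h2 : 0 ≤ 4 * L * (1 + t) * (2 + t) * q ^ 2 - ((1 + L) * (2 + t) * q - t) * DD t q := by
      rw [G_id]; exact mul_nonneg (by linarith) h1
    have h3 : ((1 + L) * (2 + t) * q - t) * DD t q ≤ (L * (2 + t) * h) * DD t q := by
      have := mul_le_mul_of_nonneg_left hSP (by positivity : 0 ≤ L * (2 + t))
      nlinarith
    have h4 := le_of_mul_le_mul_right h3 hD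
    have h5 : t / (2 + t) * (2 + t) = t := by field_simp
    have h6 : (q - t / (2 + t)) * (2 + t) ≤ L * (h - q) * (2 + t) := by nlinarith
    exact le_of_mul_le_mul_right h6 h2t

/-- R is concave in q: nonnegative between t/(2+t) and q1 if it is at the ends. -/
theorem R_conc {L t q q1 : ℝ} (hL : 1 ≤ L) (ht : 0 < t) (ht3 : t * (4 - 2 * L) ≤ 4 * (L - 1))
    (hq : t < (2 + t) * q) (hq1 : q ≤ q1)
    (h1 : 0 ≤ -(1 + L) * (2 + t) ^ 2 * q1 ^ 2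
        + (4 * L * (1 + t) + 2 * t + (2 + L) * t ^ 2) * q1 - t * (2 + t)) :
    0 ≤ -(1 + L) * (2 + t) ^ 2 * q ^ 2
        + (4 * L * (1 + t) + 2 * t + (2 + L) * t ^ 2) * q - t * (2 + t) := by
  have h2t : (0 : ℝ) < 2 + t := by linarith
  set R1 := -(1 + L) * (2 + t) ^ 2 * q1 ^ 2
        + (4 * L * (1 + t) + 2 * t + (2 + L) * t ^ 2) * q1 - t * (2 + t) with hR1
  set R := -(1 + L) * (2 + t) ^ 2 * q ^ 2
        + (4 * L * (1 + t) + 2 * t + (2 + L) * t ^ 2) * q - t * (2 + t) with hR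
  have hs : 0 < (2 + t) * q - t := by linarith
  have hs1 : 0 < (2 + t) * q1 - t := by nlinarith
  have hss : 0 ≤ (2 + t) * q1 - (2 + t) * q := by nlinarith
  have hid : ((2 + t) * q1 - t) * ((2 + t) * R) =
      ((2 + t) * q1 - (2 + t) * q) * (t * (4 * (L - 1) - t * (4 - 2 * L)))
      + ((2 + t) * q - t) * ((2 + t) * R1)
      + (1 + L) * (2 + t) * (((2 + t) * q - t) * ((2 + t) * q1 - (2 + t) * q) * ((2 + t) * q1 - t)) := by
    rw [hR, hR1]; ring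
  have hpos : 0 ≤ ((2 + t) * q1 - t) * ((2 + t) * R) := by
    rw [hid]
    have e1 : 0 ≤ t * (4 * (L - 1) - t * (4 - 2 * L)) := mul_nonneg ht.le (by linarith)
    have e2 : 0 ≤ (2 + t) * R1 := mul_nonneg h2t.le h1
    have e3 : 0 ≤ (1 + L) * (2 + t) := by positivity
    have := mul_nonneg hss e1
    have := mul_nonneg hs.le e2
    have := mul_nonneg e3 (mul_nonneg (mul_nonneg hs.le hss) hs1.le)
    linarith
  have h3 : 0 ≤ (2 + t) * R := nonneg_of_mul_nonneg_right hpos hs1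
  exact nonneg_of_mul_nonneg_right h3 h2t


theorem S4a {t q : ℝ} (h0 : (1/3 : ℝ) ≤ t) (h1 : t ≤ (3/7 : ℝ)) (hq0 : 0 ≤ q) (hq1 : q ≤ (11/20 : ℝ)) :
    32 * (2 + t) * q ≤ 5 * (12 + 5 * t) * (1 - t - (1 - t) * q + (9/49 : ℝ) * (1 + t) * (1 + q)) := by
  have a0 : 0 ≤ t - (1/3 : ℝ) := by linarith
  have a1 : 0 ≤ (3/7 : ℝ) - t := by linarith
  have b0 : 0 ≤ q := hq0
  have b1 : 0 ≤ (11/20 : ℝ) - q := by linarith
  linarith only [mul_nonneg (mul_nonneg (pow_nonneg a0 0) (pow_nonneg a1 2)) (mul_nonneg (pow_nonneg b0 0) (pow_nonneg b1 1)),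
    mul_nonneg (mul_nonneg (pow_nonneg a0 0) (pow_nonneg a1 2)) (mul_nonneg (pow_nonneg b0 1) (pow_nonneg b1 0)),
    mul_nonneg (mul_nonneg (pow_nonneg a0 1) (pow_nonneg a1 1)) (mul_nonneg (pow_nonneg b0 0) (pow_nonneg b1 1)),
    mul_nonneg (mul_nonneg (pow_nonneg a0 1) (pow_nonneg a1 1)) (mul_nonneg (pow_nonneg b0 1) (pow_nonneg b1 0)),
    mul_nonneg (mul_nonneg (pow_nonneg a0 2) (pow_nonneg a1 0)) (mul_nonneg (pow_nonneg b0 0) (pow_nonneg b1 1)),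
    mul_nonneg (mul_nonneg (pow_nonneg a0 2) (pow_nonneg a1 0)) (mul_nonneg (pow_nonneg b0 1) (pow_nonneg b1 0))]

theorem S4b {t q : ℝ} (h0 : (3/7 : ℝ) ≤ t) (h1 : t ≤ (1/2 : ℝ)) (hq0 : 0 ≤ q) (hq1 : q ≤ (11/20 : ℝ)) :
    32 * (2 + t) * q ≤ 5 * (12 + 5 * t) * (1 - t - (1 - t) * q + (1/5 : ℝ) * (1 + t) * (1 + q)) := by
  have a0 : 0 ≤ t - (3/7 : ℝ) := by linarith
  have a1 : 0 ≤ (1/2 : ℝ) - t := by linarith
  have b0 : 0 ≤ q := hq0
  have b1 : 0 ≤ (11/20 : ℝ) - q := by linarith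
  linarith only [mul_nonneg (mul_nonneg (pow_nonneg a0 0) (pow_nonneg a1 2)) (mul_nonneg (pow_nonneg b0 0) (pow_nonneg b1 1)),
    mul_nonneg (mul_nonneg (pow_nonneg a0 0) (pow_nonneg a1 2)) (mul_nonneg (pow_nonneg b0 1) (pow_nonneg b1 0)),
    mul_nonneg (mul_nonneg (pow_nonneg a0 1) (pow_nonneg a1 1)) (mul_nonneg (pow_nonneg b0 0) (pow_nonneg b1 1)),
    mul_nonneg (mul_nonneg (pow_nonneg a0 1) (pow_nonneg a1 1)) (mul_nonneg (pow_nonneg b0 1) (pow_nonneg b1 0)),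
    mul_nonneg (mul_nonneg (pow_nonneg a0 2) (pow_nonneg a1 0)) (mul_nonneg (pow_nonneg b0 0) (pow_nonneg b1 1)),
    mul_nonneg (mul_nonneg (pow_nonneg a0 2) (pow_nonneg a1 0)) (mul_nonneg (pow_nonneg b0 1) (pow_nonneg b1 0))]

theorem S4c {t q : ℝ} (h0 : (1/2 : ℝ) ≤ t) (h1 : t ≤ (3/4 : ℝ)) (hq0 : 0 ≤ q) (hq1 : q ≤ (11/20 : ℝ)) :
    32 * (2 + t) * q ≤ 5 * (12 + 5 * t) * (1 - t - (1 - t) * q + (9/40 : ℝ) * (1 + t) * (1 + q)) := by
  have a0 : 0 ≤ t - (1/2 : ℝ) := by linarith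
  have a1 : 0 ≤ (3/4 : ℝ) - t := by linarith
  have b0 : 0 ≤ q := hq0
  have b1 : 0 ≤ (11/20 : ℝ) - q := by linarith
  linarith only [mul_nonneg (mul_nonneg (pow_nonneg a0 0) (pow_nonneg a1 2)) (mul_nonneg (pow_nonneg b0 0) (pow_nonneg b1 1)),
    mul_nonneg (mul_nonneg (pow_nonneg a0 0) (pow_nonneg a1 2)) (mul_nonneg (pow_nonneg b0 1) (pow_nonneg b1 0)),
    mul_nonneg (mul_nonneg (pow_nonneg a0 1) (pow_nonneg a1 1)) (mul_nonneg (pow_nonneg b0 0) (pow_nonneg b1 1)),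
    mul_nonneg (mul_nonneg (pow_nonneg a0 1) (pow_nonneg a1 1)) (mul_nonneg (pow_nonneg b0 1) (pow_nonneg b1 0)),
    mul_nonneg (mul_nonneg (pow_nonneg a0 2) (pow_nonneg a1 0)) (mul_nonneg (pow_nonneg b0 0) (pow_nonneg b1 1)),
    mul_nonneg (mul_nonneg (pow_nonneg a0 2) (pow_nonneg a1 0)) (mul_nonneg (pow_nonneg b0 1) (pow_nonneg b1 0))]

theorem S4d {t q : ℝ} (h0 : (3/4 : ℝ) ≤ t) (h1 : t ≤ (1 : ℝ)) (hq0 : 0 ≤ q) (hq1 : q ≤ (11/20 : ℝ)) :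
    32 * (2 + t) * q ≤ 5 * (12 + 5 * t) * (1 - t - (1 - t) * q + (1/4 : ℝ) * (1 + t) * (1 + q)) := by
  have a0 : 0 ≤ t - (3/4 : ℝ) := by linarith
  have a1 : 0 ≤ (1 : ℝ) - t := by linarith
  have b0 : 0 ≤ q := hq0
  have b1 : 0 ≤ (11/20 : ℝ) - q := by linarith
  linarith only [mul_nonneg (mul_nonneg (pow_nonneg a0 0) (pow_nonneg a1 2)) (mul_nonneg (pow_nonneg b0 0) (pow_nonneg b1 1)),
    mul_nonneg (mul_nonneg (pow_nonneg a0 0) (pow_nonneg a1 2)) (mul_nonneg (pow_nonneg b0 1) (pow_nonneg b1 0)),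
    mul_nonneg (mul_nonneg (pow_nonneg a0 1) (pow_nonneg a1 1)) (mul_nonneg (pow_nonneg b0 0) (pow_nonneg b1 1)),
    mul_nonneg (mul_nonneg (pow_nonneg a0 1) (pow_nonneg a1 1)) (mul_nonneg (pow_nonneg b0 1) (pow_nonneg b1 0)),
    mul_nonneg (mul_nonneg (pow_nonneg a0 2) (pow_nonneg a1 0)) (mul_nonneg (pow_nonneg b0 0) (pow_nonneg b1 1)),
    mul_nonneg (mul_nonneg (pow_nonneg a0 2) (pow_nonneg a1 0)) (mul_nonneg (pow_nonneg b0 1) (pow_nonneg b1 0))]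

theorem R_large {t : ℝ} (h0 : 0 ≤ t) (h1 : t ≤ 1) :
    0 ≤ -(1 + 8/5) * (2 + t) ^ 2 * (11/20 : ℝ) ^ 2
        + (4 * (8/5) * (1 + t) + 2 * t + (2 + 8/5) * t ^ 2) * (11/20) - t * (2 + t) := by
  nlinarith [mul_nonneg h0 (sub_nonneg.2 h1)]

theorem R_small {t : ℝ} (h0 : 0 ≤ t) (h1 : t ≤ 1/3) :
    0 ≤ -(1 + 7/5) * (2 + t) ^ 2 * (1/2 : ℝ) ^ 2
        + (4 * (7/5) * (1 + t) + 2 * t + (2 + 7/5) * t ^ 2) * (1/2) - t * (2 + t) := by
  nlinarith [mul_nonneg h0 (sub_nonneg.2 h1)]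

/-- The universal fraction used in (RF): lower bounds of f(1+1/t) by the range of t. -/
def FLow (t f : ℝ) : Prop :=
  9 / 49 ≤ f ∧ (3 / 7 ≤ t → 1 / 5 ≤ f) ∧ (1 / 2 ≤ t → 9 / 40 ≤ f) ∧ (3 / 4 ≤ t → 1 / 4 ≤ f)

theorem core_large {t q h f : ℝ} (ht : 1 / 3 ≤ t) (ht1 : t ≤ 1) (hf : FLow t f)
    (hq : 0 ≤ q) (hqh : q ≤ h) (hh : h ≤ 1)
    (hSP : 4 * (1 + t) * q ^ 2 ≤ h * DD t q)
    (hRF : h ≤ 1 + t - t * q - f * (1 + t) * (1 + q)) :
    q ≤ 11 / 20 ∧ q - t / (2 + t) ≤ 8 / 5 * (h - q) ∧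
      8 / 5 * q ≤ 3 / 2 * (1 - t / (2 + t) / 6) * (2 - h - q) := by
  have ht0 : 0 < t := by linarith
  have hD := DD_pos t q ht0
  obtain ⟨f1, f2, f3, f4⟩ := hf
  have hq1 : q ≤ 1 := hqh.trans hh
  have hpq : 0 ≤ (1 + t) * (1 + q) := by positivity
  have mono : ∀ g : ℝ, g ≤ f → h ≤ 1 + t - t * q - g * (1 + t) * (1 + q) := by
    intro g hg
    have := mul_le_mul_of_nonneg_right hg hpq
    nlinarith
  have fin : ∀ g : ℝ, g ≤ f → 4 * (1 + t) * q ^ 2 ≤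
      (1 + t - t * q - g * (1 + t) * (1 + q)) * DD t q := by
    intro g hg
    exact hSP.trans (mul_le_mul_of_nonneg_right (mono g hg) hD.le)
  have P : q ≤ 11 / 20 := by
    by_contra hc
    push Not at hc
    rcases le_or_gt t (3 / 7) with h1 | h1
    · exact absurd (fin _ f1) (not_le.2 (S2a ht h1 hc.le hq1))
    rcases le_or_gt t (1 / 2) with h2 | h2
    · exact absurd (fin _ (f2 h1.le)) (not_le.2 (S2b h1.le h2 hc.le hq1))
    rcases le_or_gt t (3 / 4) with h3 | h3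
    · exact absurd (fin _ (f3 h2.le)) (not_le.2 (S2c h2.le h3 hc.le hq1))
    · exact absurd (fin _ (f4 h3.le)) (not_le.2 (S2d h3.le ht1 hc.le hq1))
  refine ⟨P, ?_, ?_⟩
  · refine QL_of_R (by norm_num) ht0 hqh ?_ hSP
    intro hc
    refine R_conc (by norm_num) ht0 (by linarith) hc P ?_
    have := R_large ht0.le ht1
    linarith
  · have h2t : (0 : ℝ) < 2 + t := by linarith
    have e : 3 / 2 * (1 - t / (2 + t) / 6) * (2 - h - q) * (20 * (2 + t))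
        = 5 * (1 / 5) * (5 * ((12 + 5 * t) * (2 - h - q))) := by
      field_simp
      ring
    have key : 32 * (2 + t) * q ≤ 5 * (12 + 5 * t) * (2 - h - q) := by
      have h12 : 0 ≤ 5 * (12 + 5 * t) := by positivity
      rcases le_or_gt t (3 / 7) with h1 | h1
      · have := S4a ht h1 hq P
        have := mul_le_mul_of_nonneg_left (mono _ f1) h12
        nlinarith
      rcases le_or_gt t (1 / 2) with h2 | h2
      · have := S4b h1.le h2 hq P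
        have := mul_le_mul_of_nonneg_left (mono _ (f2 h1.le)) h12
        nlinarith
      rcases le_or_gt t (3 / 4) with h3 | h3
      · have := S4c h2.le h3 hq P
        have := mul_le_mul_of_nonneg_left (mono _ (f3 h2.le)) h12
        nlinarith
      · have := S4d h3.le ht1 hq P
        have := mul_le_mul_of_nonneg_left (mono _ (f4 h3.le)) h12
        nlinarith
    have h7 : 8 / 5 * q * (20 * (2 + t)) ≤ 3 / 2 * (1 - t / (2 + t) / 6) * (2 - h - q) * (20 * (2 + t)) := by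
      rw [e]; linarith
    exact le_of_mul_le_mul_right h7 (by positivity)

theorem core_small {t q h : ℝ} (ht0 : 0 < t) (ht1 : t ≤ 1 / 3)
    (hq : 0 ≤ q) (hqh : q ≤ h) (hh : h ≤ 1)
    (hSP : 4 * (1 + t) * q ^ 2 ≤ h * DD t q)
    (hRF : h ≤ 1 + t - t * q - t / (1 + t) * (1 + t) * (1 + q)) :
    q ≤ 1 / 2 ∧ q - t / (2 + t) ≤ 7 / 5 * (h - q) ∧
      7 / 5 * q ≤ 3 / 2 * (1 - t / (2 + t) / 6) * (2 - h - q) := by
  have hD := DD_pos t q ht0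
  have hq1 : q ≤ 1 := hqh.trans hh
  have e1 : t / (1 + t) * (1 + t) = t := by field_simp
  rw [e1] at hRF
  have P : q ≤ 1 / 2 := by
    by_contra hc
    push Not at hc
    have h1 : h ≤ 1 - 2 * t * q := by linarith
    exact absurd (hSP.trans (mul_le_mul_of_nonneg_right h1 hD.le)) (not_le.2 (S1 ht0 hc.le hq1))
  refine ⟨P, ?_, ?_⟩
  · refine QL_of_R (by norm_num) ht0 hqh ?_ hSP
    intro hc
    refine R_conc (by norm_num) ht0 (by linarith) hc P ?_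
    have := R_small ht0.le ht1
    linarith
  · have h2t : (0 : ℝ) < 2 + t := by linarith
    have hτ : t / (2 + t) ≤ 1 / 7 := by rw [div_le_div_iff₀ h2t (by norm_num)]; linarith
    have hx : 1 / 2 ≤ 2 - h - q := by linarith
    have hθ : 41 / 28 ≤ 3 / 2 * (1 - t / (2 + t) / 6) := by linarith
    nlinarith [mul_le_mul hθ hx (by norm_num) (by linarith : 0 ≤ 3 / 2 * (1 - t / (2 + t) / 6))]

/-- All scalar facts for t in [1/3, 1] (Lam = 8/5). -/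
theorem scal_large {t q r h f : ℝ} (ht : 1 / 3 ≤ t) (ht1 : t ≤ 1) (hf : FLow t f) (hf1 : f ≤ 1)
    (hq : 0 ≤ q) (hr : 0 ≤ r) (hqh : q ≤ h) (hrl : r ≤ 1 - h)
    (hSP : q ^ 2 / h + r ^ 2 / (1 - h) ≤ (q - r) ^ 2 + t / (4 * (1 + t)) * (1 - (q - r) ^ 2)
      + t / 4 * ((1 - (q - r)) ^ 2 - 4 * r))
    (hRF : f * (1 + q - r) ≤ (1 - h - r) + t / (1 + t) * (h - q)) :
    q ≤ 11 / 20 ∧ q - t / (2 + t) ≤ 8 / 5 * (h - q) ∧
      8 / 5 * q ≤ 3 / 2 * (1 - t / (2 + t) / 6) * (2 - h - q) :=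
  core_large ht ht1 hf hq hqh (by linarith)
    (elim_SP (by linarith) hq hr hqh hrl hSP) (elim_RF (by linarith) hr hf1 hRF)

/-- All scalar facts for t in (0, 1/3] (Lam = 7/5). -/
theorem scal_small {t q r h : ℝ} (ht : 0 < t) (ht1 : t ≤ 1 / 3)
    (hq : 0 ≤ q) (hr : 0 ≤ r) (hqh : q ≤ h) (hrl : r ≤ 1 - h)
    (hSP : q ^ 2 / h + r ^ 2 / (1 - h) ≤ (q - r) ^ 2 + t / (4 * (1 + t)) * (1 - (q - r) ^ 2)
      + t / 4 * ((1 - (q - r)) ^ 2 - 4 * r))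
    (hRF : t / (1 + t) * (1 + q - r) ≤ (1 - h - r) + t / (1 + t) * (h - q)) :
    q ≤ 1 / 2 ∧ q - t / (2 + t) ≤ 7 / 5 * (h - q) ∧
      7 / 5 * q ≤ 3 / 2 * (1 - t / (2 + t) / 6) * (2 - h - q) :=
  core_small ht ht1 hq hqh (by linarith)
    (elim_SP ht hq hr hqh hrl hSP)
    (elim_RF ht hr (by rw [div_le_one (by positivity)]; linarith) hRF)

end Pool.MMSh41
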